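import Pool.Agent.Helper24.MA.Rk.SubL
import Pool.Agent.Helper24.MA.Op.Ad
import Pool.Agent.Helper24.MA.Op.SpPow

/-!
# gr of the endomorphism representation (module MA-10)

CLAIM: `(gr p ρ) ^ 2 ≤ gr p (linHom ρ ρ)`, `linHom ρ ρ x f = ρ x f ρ x⁻¹`. PROOF. `K = Kf k E`, `T = End_k V`, `L x f = ρ x f`,
`R x f = f ρ x`, `A x = L x - R x` (commuting operators on `T`). Let `w = famOp K A (tv k) = ∑ t_x A x` on `K ⊗ T` and
`c_u = spOp K (linHom ρ ρ) (tv k) = ∑ t_x (L x R x⁻¹ - 1)`. Since `L x R x⁻¹ - 1 = R x⁻¹ (L x - R x)` we have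
`c_u = ∑ (t_x + nu x) A x` with `nu x = t_x (R x⁻¹ - 1)`, and all the operators commute, so by `sub_rankL` (`F := K`, `c := tv k`)
`rank (c_u ^ j) ≤ rank (w ^ j)` for all `j`. The natural map `K ⊗ End_k V → End_K (K ⊗ V)` is an isomorphism
(`Module.FinitePresentation.isBaseChange_map`, `IsBaseChange.equiv`; on pure tensors `a ⊗ f ↦ a • f.baseChange K`) which turns `w` into
`adOp (spOp K ρ (tv k))`: the constant terms cancel, `∑ t_x (ρ x f - f ρ x) = u f - f u`. So `w ^ p = 0` and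
`hrk p w = hrk p (adOp u) ≥ (hrk p u) ^ 2 = (gr p ρ) ^ 2` (`hrk_ad`, `spOp_pow`). By `hrk_eq` for `c_u` and `w` (`c_u ^ p = 0`
by `spOp_pow`) `hrk p c_u = dim - rank c_u - rank (c_u ^ (p-1)) ≥ dim - rank w - rank (w ^ (p-1)) = hrk p w`.
-/

open TensorProduct

namespace Pool.Agent.Helper24.MA

private theorem conj_pow_eq {K U W : Type} [Field K] [AddCommGroup U] [Module K U]
    [AddCommGroup W] [Module K W] (e : U →ₗ[K] W) (N : U →ₗ[K] U) (M : W →ₗ[K] W)
    (h : e ∘ₗ N = M ∘ₗ e) (j : ℕ) : e ∘ₗ (N ^ j) = (M ^ j) ∘ₗ e := by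
  induction j with
  | zero => rfl
  | succ j ih =>
    rw [pow_succ N, pow_succ M, Module.End.mul_eq_comp, Module.End.mul_eq_comp,
      ← LinearMap.comp_assoc, ih, LinearMap.comp_assoc, h, LinearMap.comp_assoc]

private theorem hrk_congr_eq (p : ℕ) {K U W : Type} [Field K] [AddCommGroup U] [Module K U]
    [AddCommGroup W] [Module K W] (e : U ≃ₗ[K] W) (N : U →ₗ[K] U) (M : W →ₗ[K] W)
    (h : e.toLinearMap ∘ₗ N = M ∘ₗ e.toLinearMap) : hrk p N = hrk p M := by
  have hpow := conj_pow_eq e.toLinearMap N M h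
  have hr : Module.finrank K (LinearMap.range (N ^ (p - 1)))
      = Module.finrank K (LinearMap.range (M ^ (p - 1))) := by
    have h1 : LinearMap.range (M ^ (p - 1))
        = (LinearMap.range (N ^ (p - 1))).map e.toLinearMap := by
      rw [← LinearMap.range_comp, hpow, LinearMap.range_comp_of_range_eq_top]
      exact e.range
    rw [h1]
    exact (LinearEquiv.finrank_map_eq e _).symm
  have hk : Module.finrank K (LinearMap.ker N) = Module.finrank K (LinearMap.ker M) := by
    have h1 : (LinearMap.ker N).map e.toLinearMap = LinearMap.ker M := by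
      ext w
      constructor
      · rintro ⟨v, hv, rfl⟩
        have := LinearMap.congr_fun h v
        simp only [LinearMap.comp_apply, LinearEquiv.coe_coe] at this
        have hv' : N v = 0 := hv
        rw [hv', map_zero] at this
        exact this.symm
      · intro hw
        refine ⟨e.symm w, ?_, by simp⟩
        have := LinearMap.congr_fun h (e.symm w)
        simp only [LinearMap.comp_apply, LinearEquiv.coe_coe, LinearEquiv.apply_symm_apply] at this
        have hw' : M w = 0 := hw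
        rw [hw'] at this
        have h2 : N (e.symm w) = 0 := by simpa using this
        exact h2
    rw [← h1]
    exact (LinearEquiv.finrank_map_eq e _).symm
  unfold hrk
  rw [hr, hk]

/-- left multiplication -/
private noncomputable def Lm {k V : Type} [Field k] [AddCommGroup V] [Module k V]
    (g : V →ₗ[k] V) : (V →ₗ[k] V) →ₗ[k] (V →ₗ[k] V) where
  toFun f := g ∘ₗ f
  map_add' f h := by rw [LinearMap.comp_add]
  map_smul' c f := by rw [LinearMap.comp_smul]; rfl

/-- right multiplication -/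
private noncomputable def Rm {k V : Type} [Field k] [AddCommGroup V] [Module k V]
    (g : V →ₗ[k] V) : (V →ₗ[k] V) →ₗ[k] (V →ₗ[k] V) where
  toFun f := f ∘ₗ g
  map_add' f h := by rw [LinearMap.add_comp]
  map_smul' c f := by rw [LinearMap.smul_comp]; rfl

theorem gr_sq_le (p : ℕ) [Fact p.Prime] {k E V : Type} [Field k] [CharP k p] [Group E]
    [Fintype E] (hE : ElAb p E) [AddCommGroup V] [Module k V] [FiniteDimensional k V]
    (ρ : Representation k E V) : gr p ρ * gr p ρ ≤ gr p (Representation.linHom ρ ρ) := by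
  classical
  have hp : 0 < p := (Fact.out : p.Prime).pos
  have hchar : CharP (Kf k E) p := by
    have : Function.Injective (algebraMap k (Kf k E)) := RingHom.injective _
    exact charP_of_injective_algebraMap this p
  set A : E → ((V →ₗ[k] V) →ₗ[k] (V →ₗ[k] V)) := fun x => Lm (ρ x) - Rm (ρ x) with hA
  have hcomm : ∀ x y : E, (ρ x) ∘ₗ (ρ y) = (ρ y) ∘ₗ (ρ x) := by
    intro x y
    rw [← Module.End.mul_eq_comp, ← Module.End.mul_eq_comp, ← map_mul, ← map_mul, hE.comm]
  have hLL : ∀ x y : E, Lm (ρ x) ∘ₗ Lm (ρ y) = Lm (ρ y) ∘ₗ Lm (ρ x) := by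
    intro x y
    ext1 f
    show ρ x ∘ₗ (ρ y ∘ₗ f) = ρ y ∘ₗ (ρ x ∘ₗ f)
    rw [← LinearMap.comp_assoc, hcomm, LinearMap.comp_assoc]
  have hRR : ∀ x y : E, Rm (ρ x) ∘ₗ Rm (ρ y) = Rm (ρ y) ∘ₗ Rm (ρ x) := by
    intro x y
    ext1 f
    show (f ∘ₗ ρ y) ∘ₗ ρ x = (f ∘ₗ ρ x) ∘ₗ ρ y
    rw [LinearMap.comp_assoc, hcomm, LinearMap.comp_assoc]
  have hLR : ∀ x y : E, Lm (ρ x) ∘ₗ Rm (ρ y) = Rm (ρ y) ∘ₗ Lm (ρ x) := by
    intro x y
    ext1 f
    show ρ x ∘ₗ (f ∘ₗ ρ y) = (ρ x ∘ₗ f) ∘ₗ ρ y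
    rw [LinearMap.comp_assoc]
  have hAA : ∀ x y, A x ∘ₗ A y = A y ∘ₗ A x := by
    intro x y
    simp only [hA, LinearMap.sub_comp, LinearMap.comp_sub]
    rw [hLL x y, hRR x y, hLR x y, ← hLR y x]
    abel
  have hRA : ∀ x y, Rm (ρ x) ∘ₗ A y = A y ∘ₗ Rm (ρ x) := by
    intro x y
    simp only [hA, LinearMap.sub_comp, LinearMap.comp_sub]
    rw [hRR x y, ← hLR y x]
  set nu : E → (Kf k E ⊗[k] (V →ₗ[k] V) →ₗ[Kf k E] Kf k E ⊗[k] (V →ₗ[k] V)) :=
    fun x => tv k x • ((Rm (ρ x⁻¹) - LinearMap.id).baseChange (Kf k E)) with hnu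
  have hkey : ∀ x : E, Rm (ρ x⁻¹) ∘ₗ A x = Representation.linHom ρ ρ x - 1 := by
    intro x
    ext1 f
    show (ρ x ∘ₗ f - f ∘ₗ ρ x) ∘ₗ ρ x⁻¹ = ρ x ∘ₗ f ∘ₗ ρ x⁻¹ - f
    rw [LinearMap.sub_comp, LinearMap.comp_assoc, LinearMap.comp_assoc]
    congr 1
    rw [← Module.End.mul_eq_comp (ρ x) (ρ x⁻¹), ← map_mul, mul_inv_cancel, map_one]
    rfl
  have hsum : ∑ x, (tv k x • LinearMap.id + nu x) ∘ₗ (A x).baseChange (Kf k E)
      = spOp (Kf k E) (Representation.linHom ρ ρ) (tv k) := by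
    unfold spOp
    refine Finset.sum_congr rfl fun x _ => ?_
    have h1 : tv k x • LinearMap.id + nu x = tv k x • (Rm (ρ x⁻¹)).baseChange (Kf k E) := by
      rw [hnu]
      simp only
      rw [← smul_add, LinearMap.baseChange_sub, LinearMap.baseChange_id]
      congr 1
      abel
    rw [h1, LinearMap.smul_comp, ← LinearMap.baseChange_comp, hkey]
  have hrank : ∀ j : ℕ, Module.finrank (Kf k E) (LinearMap.range
      (spOp (Kf k E) (Representation.linHom ρ ρ) (tv k) ^ j)) ≤
      Module.finrank (Kf k E) (LinearMap.range (famOp (Kf k E) A (tv k) ^ j)) := by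
    intro j
    rw [← hsum]
    refine sub_rankL A nu (tv k) j hAA ?_ ?_
    · intro x y
      rw [hnu]
      simp only
      rw [LinearMap.smul_comp, LinearMap.comp_smul, LinearMap.smul_comp, LinearMap.comp_smul,
        ← LinearMap.baseChange_comp, ← LinearMap.baseChange_comp, smul_comm]
      congr 3
      simp only [LinearMap.comp_sub, LinearMap.sub_comp, LinearMap.comp_id, LinearMap.id_comp,
        hRR x⁻¹ y⁻¹]
      abel
    · intro x y
      rw [hnu]
      simp only
      rw [LinearMap.smul_comp, LinearMap.comp_smul,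
        ← LinearMap.baseChange_comp, ← LinearMap.baseChange_comp]
      congr 2
      rw [LinearMap.sub_comp, hRA x⁻¹ y, LinearMap.id_comp, LinearMap.comp_sub,
        LinearMap.comp_id]
  -- the natural isomorphism
  have hfp : Module.FinitePresentation k V := Module.finitePresentation_of_finite k V
  have hbc := Module.FinitePresentation.isBaseChange_map (R := k) (M := V) (N := V) (Kf k E)
  let Ψ := hbc.equiv
  have hΨ : ∀ (a : Kf k E) (f : V →ₗ[k] V), Ψ (a ⊗ₜ f) = a • f.baseChange (Kf k E) := by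
    intro a f
    exact hbc.equiv_tmul a f
  set N := spOp (Kf k E) ρ (tv k) with hN
  have hNp : N ^ p = 0 := spOp_pow p hE ρ (tv k)
  have hint : Ψ.toLinearMap ∘ₗ famOp (Kf k E) A (tv k) = adOp N ∘ₗ Ψ.toLinearMap := by
    refine TensorProduct.AlgebraTensorModule.ext fun a f => ?_
    have e1 : famOp (Kf k E) A (tv k) (a ⊗ₜ[k] f)
        = ∑ x : E, tv k x • (a ⊗ₜ[k] (ρ x ∘ₗ f - f ∘ₗ ρ x)) := by
      unfold famOp
      rw [LinearMap.sum_apply]
      refine Finset.sum_congr rfl fun x _ => ?_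
      rw [LinearMap.smul_apply, LinearMap.baseChange_tmul]
      rfl
    show Ψ (famOp (Kf k E) A (tv k) (a ⊗ₜ[k] f)) = adOp N (Ψ (a ⊗ₜ[k] f))
    rw [e1, map_sum, hΨ]
    have e2 : ∀ x : E, Ψ (tv k x • (a ⊗ₜ[k] (ρ x ∘ₗ f - f ∘ₗ ρ x)))
        = tv k x • a • ((ρ x - 1).baseChange (Kf k E) ∘ₗ f.baseChange (Kf k E)
          - f.baseChange (Kf k E) ∘ₗ (ρ x - 1).baseChange (Kf k E)) := by
      intro x
      rw [map_smul, hΨ, ← LinearMap.baseChange_comp, ← LinearMap.baseChange_comp,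
        ← LinearMap.baseChange_sub]
      congr 3
      rw [LinearMap.sub_comp, LinearMap.comp_sub, Module.End.one_eq_id, LinearMap.comp_id,
        LinearMap.id_comp]
      abel
    simp only [e2]
    rw [map_smul]
    have e3 : adOp N (f.baseChange (Kf k E)) = ∑ x : E, tv k x •
        ((ρ x - 1).baseChange (Kf k E) ∘ₗ f.baseChange (Kf k E)
          - f.baseChange (Kf k E) ∘ₗ (ρ x - 1).baseChange (Kf k E)) := by
      refine LinearMap.ext fun z => ?_
      show N (f.baseChange (Kf k E) z) - f.baseChange (Kf k E) (N z) = _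
      rw [hN]
      unfold spOp
      rw [LinearMap.sum_apply, LinearMap.sum_apply, LinearMap.sum_apply, map_sum,
        ← Finset.sum_sub_distrib]
      refine Finset.sum_congr rfl fun x _ => ?_
      rw [LinearMap.smul_apply, LinearMap.smul_apply, LinearMap.smul_apply, map_smul, ← smul_sub]
      rfl
    rw [e3, Finset.smul_sum]
    refine Finset.sum_congr rfl fun x _ => ?_
    rw [smul_comm]
  have hw : hrk p (famOp (Kf k E) A (tv k)) = hrk p (adOp N) := hrk_congr_eq p Ψ _ _ hint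
  have hwp : famOp (Kf k E) A (tv k) ^ p = 0 := by
    have h1 := conj_pow_eq Ψ.toLinearMap (famOp (Kf k E) A (tv k)) (adOp N) hint p
    rw [adOp_pow p N hNp, LinearMap.zero_comp] at h1
    refine LinearMap.ext fun z => ?_
    have h2 := LinearMap.congr_fun h1 z
    have h3 : Ψ ((famOp (Kf k E) A (tv k) ^ p) z) = 0 := h2
    rw [LinearMap.zero_apply]
    exact (LinearEquiv.map_eq_zero_iff Ψ).1 h3
  have h1 := hrk_ad p N hNp
  have h2 := hrk_eq p hp _ hwp
  have h3 := hrk_eq p hp _ (spOp_pow p hE (Representation.linHom ρ ρ) (tv k) (F := Kf k E))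
  have h4 := hrank 1
  have h5 := hrank (p - 1)
  rw [pow_one, pow_one] at h4
  show hrk p N * hrk p N ≤ hrk p _
  have h6 : gr p (Representation.linHom ρ ρ)
    = hrk p (spOp (Kf k E) (Representation.linHom ρ ρ) (tv k)) := rfl
  rw [← hw] at h1
  omega

end Pool.Agent.Helper24.MA
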