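import Mathlib

/-!
# Rank under specialisation (module MA-06)

PROOF of `rank_map_le`: let `r = (A.map f).rank`. Over a field a matrix of rank `r` has an `r × r` submatrix with nonzero
determinant: choose `r` linearly independent columns (`exists_linearIndependent'` or a basis of the
column space among the columns, `Matrix.rank_eq_finrank_span_cols`), then `r` linearly independent rows of the `m × r` matrix
obtained (`Matrix.rank_transpose`), and a square matrix with linearly independent rows has nonzero determinant. The
determinant of the same submatrix of `A` is mapped by `f` to a nonzero element, so it is nonzero, hence its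
image under the injective `i` is nonzero, so the corresponding submatrix of `A.map i` has rank `r`
(`Matrix.rank_of_isUnit`) and `r ≤ (A.map i).rank` (`Matrix.rank_submatrix_le` applied to rows and, after
transposing, columns).
-/

namespace Pool.Agent.Helper24.MA

private lemma exists_cols {K m n : Type} [Field K] [Fintype m] [Fintype n] (M : Matrix m n K) :
    ∃ v : Fin M.rank → n, LinearIndependent K (M.submatrix id v).col := by
  obtain ⟨f, hf1, _, hf3⟩ := Submodule.exists_fun_fin_finrank_span_eq K (Set.range M.col)
  choose w hw using hf1
  have e : M.rank = Module.finrank K (Submodule.span K (Set.range M.col)) :=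
    M.rank_eq_finrank_span_cols
  refine ⟨fun i => w (Fin.cast e i), ?_⟩
  have h : (M.submatrix id fun i => w (Fin.cast e i)).col = f ∘ Fin.cast e := by
    funext i
    rw [Function.comp_apply, ← hw (Fin.cast e i)]
    rfl
  rw [h]
  exact hf3.comp _ (Fin.cast_injective e)

private lemma exists_minor {K m n : Type} [Field K] [Fintype m] [Fintype n] (M : Matrix m n K) :
    ∃ (u : Fin M.rank → m) (v : Fin M.rank → n), (M.submatrix u v).det ≠ 0 := by
  obtain ⟨v, hv⟩ := exists_cols M
  obtain ⟨u, hu⟩ := exists_cols (M.submatrix id v).transpose
  have hr : (M.submatrix id v).transpose.rank = M.rank := by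
    have h1 : LinearIndependent K (M.submatrix id v).transpose.row := by
      rw [Matrix.row_transpose]
      exact hv
    rw [h1.rank_matrix, Fintype.card_fin]
  refine ⟨fun i => u (Fin.cast hr.symm i), v, ?_⟩
  have h2 : (M.submatrix (fun i => u (Fin.cast hr.symm i)) v).row =
      ((M.submatrix id v).transpose.submatrix id u).col ∘ Fin.cast hr.symm := by
    funext i
    rfl
  have h3 : LinearIndependent K (M.submatrix (fun i => u (Fin.cast hr.symm i)) v).row := by
    rw [h2]
    exact hu.comp _ (Fin.cast_injective hr.symm)
  rw [Matrix.linearIndependent_rows_iff_isUnit, Matrix.isUnit_iff_isUnit_det] at h3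
  exact h3.ne_zero

theorem rank_map_le {R F F' m n : Type} [CommRing R] [Field F] [Field F'] [Fintype m] [Fintype n]
    (i : R →+* F) (hi : Function.Injective i) (f : R →+* F') (A : Matrix m n R) :
    (A.map f).rank ≤ (A.map i).rank := by
  obtain ⟨u, v, h⟩ := exists_minor (A.map f)
  have h1 : (A.submatrix u v).det ≠ 0 := by
    intro h0
    apply h
    have h2 : (A.map f).submatrix u v = f.mapMatrix (A.submatrix u v) := rfl
    rw [h2, ← RingHom.map_det, h0, map_zero]
  have h3 : ((A.map i).submatrix u v).det ≠ 0 := by
    have h2 : (A.map i).submatrix u v = i.mapMatrix (A.submatrix u v) := rfl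
    rw [h2, ← RingHom.map_det]
    intro h0
    exact h1 (hi (by rw [h0, map_zero]))
  have h4 : ((A.map i).submatrix u v).rank = (A.map f).rank := by
    rw [Matrix.rank_of_det_ne_zero h3, Fintype.card_fin]
  rw [← h4]
  exact Matrix.rank_submatrix_le _ _ _

theorem rank_map_eq {R F F' m n : Type} [CommRing R] [Field F] [Field F'] [Fintype m] [Fintype n]
    (i : R →+* F) (hi : Function.Injective i) (f : R →+* F') (hf : Function.Injective f)
    (A : Matrix m n R) : (A.map f).rank = (A.map i).rank :=
  le_antisymm (rank_map_le i hi f A) (rank_map_le f hf i A)

end Pool.Agent.Helper24.MA
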