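import Pool.Agent.Helper24.MA.Defs
import Pool.Agent.Helper24.MA.Rk.Minor

/-!
# Generic rank is maximal (module MA-07)

Choose a basis `b` of `T` and let `M = ∑ X x • (toMatrix b b (A x)).map C`, a matrix over `MvPolynomial σ k`. The
matrix of `famOp F A c` in the basis `b.baseChange F` (`Algebra.TensorProduct.basis F b`) is `M.map f` with
`f = MvPolynomial.eval₂Hom (algebraMap k F) c` (or `MvPolynomial.aeval c`), so the matrix of its `j`-th power is
`(M ^ j).map f`, and the matrix of `famOp (Kf k σ) A (tv k)` is `M.map (algebraMap _ _)` with the injective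
`algebraMap (MvPolynomial σ k) (FractionRing _)`. `finrank (range (toLin ..))` is the matrix rank
(`Matrix.rank_eq_finrank_range_toLin`). Conclude by `rank_map_le`. `finrank_famOp_eq`: `rank_map_eq`.
`famOp_matrix` is this computation, it is used again in MA-09.
-/

open TensorProduct

namespace Pool.Agent.Helper24.MA

variable {k σ T : Type} [Field k] [Fintype σ] [AddCommGroup T] [Module k T]
  [FiniteDimensional k T] {F : Type} [Field F] [Algebra k F]

/-- the generic matrix -/
noncomputable def famMat {ι : Type} [Fintype ι] [DecidableEq ι] (b : Module.Basis ι k T)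
    (A : σ → (T →ₗ[k] T)) : Matrix ι ι (MvPolynomial σ k) :=
  ∑ x, (MvPolynomial.X x : MvPolynomial σ k) • (LinearMap.toMatrix b b (A x)).map MvPolynomial.C

private lemma famOp_toMatrix {ι : Type} [Fintype ι] [DecidableEq ι] (b : Module.Basis ι k T)
    (A : σ → (T →ₗ[k] T)) (c : σ → F) :
    LinearMap.toMatrix (Algebra.TensorProduct.basis F b) (Algebra.TensorProduct.basis F b)
      (famOp F A c) = (famMat b A).map (MvPolynomial.eval₂Hom (algebraMap k F) c) := by
  unfold famOp famMat
  rw [map_sum]
  simp only [map_smul, LinearMap.toMatrix_baseChange]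
  ext i j
  simp only [Matrix.map_apply, Matrix.sum_apply, Matrix.smul_apply, smul_eq_mul, map_sum, map_mul,
    MvPolynomial.eval₂Hom_X', MvPolynomial.eval₂Hom_C]

theorem famOp_matrix {ι : Type} [Fintype ι] [DecidableEq ι] (b : Module.Basis ι k T)
    (A : σ → (T →ₗ[k] T)) (c : σ → F) (j : ℕ) :
    Module.finrank F (LinearMap.range (famOp F A c ^ j)) =
      ((famMat b A ^ j).map (MvPolynomial.eval₂Hom (algebraMap k F) c)).rank := by
  have h1 : (famMat b A ^ j).map (MvPolynomial.eval₂Hom (algebraMap k F) c) =
      LinearMap.toMatrix (Algebra.TensorProduct.basis F b) (Algebra.TensorProduct.basis F b)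
        (famOp F A c ^ j) := by
    rw [← LinearMap.toMatrix_pow, famOp_toMatrix]
    exact Matrix.map_pow _ _ _
  rw [h1, Matrix.rank_eq_finrank_range_toLin _ (Algebra.TensorProduct.basis F b)
    (Algebra.TensorProduct.basis F b), Matrix.toLin_toMatrix]

theorem finrank_famOp_le (A : σ → (T →ₗ[k] T)) (c : σ → F) (j : ℕ) :
    Module.finrank F (LinearMap.range (famOp F A c ^ j)) ≤
      Module.finrank (Kf k σ) (LinearMap.range (famOp (Kf k σ) A (tv k) ^ j)) := by
  classical
  rw [famOp_matrix (Module.finBasis k T) A c j, famOp_matrix (Module.finBasis k T) A (tv k) j]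
  have h : MvPolynomial.eval₂Hom (algebraMap k (Kf k σ)) (tv k) =
      algebraMap (MvPolynomial σ k) (Kf k σ) := by
    apply MvPolynomial.ringHom_ext
    · intro r
      rw [MvPolynomial.eval₂Hom_C]
      rfl
    · intro i
      rw [MvPolynomial.eval₂Hom_X']
      rfl
  rw [h]
  exact rank_map_le _ (IsFractionRing.injective (MvPolynomial σ k) (Kf k σ)) _ _

end Pool.Agent.Helper24.MA
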