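import Pool.Agent.Helper24.MA.Rk.Minor

/-!
# The perturbation lemma, matrix form (module MA-08)

`A x` commuting matrices over `k`, `F` an extension of `k`, `nu x` matrices over `F` commuting with each other and
with the `A y`. CLAIM: the rank over `F` of `(∑ (c x + nu x) A x) ^ j` is at most the generic rank of `(∑ X x • A x) ^ j` over
`k(X)`. PROOF. Let `R = MvPolynomial σ k`, `L = Frac R`, `W(X) = ∑ X x • A x` (matrix over `R`), `g` = rank of `W ^ j` over `L`,
`q = |ι| - g`. The kernel of `W ^ j` over `L` has dimension `q`; clearing denominators there are `v_1, ..., v_q` in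
`R^ι` with `W ^ j v_i = 0`, linearly independent over `L`; so some `q × q` minor `m` of the matrix `(v_i)` is
nonzero in `R` (see the proof of MA-06). Let `R' = MvPolynomial (Option σ) F`, `s_x = X (some x)`, `ε = X none`, and let
`Θ : R → Matrix ι ι R'` be the ring homomorphism with `Θ (C a) = a • 1`, `Θ (X x) = s_x • 1 + ε • (c x • 1 + nu x)`
(it exists since the matrices `s_x • 1 + ε • (c x • 1 + nu x)` commute pairwise: use `MvPolynomial.aeval` into the
commutative algebra `Algebra.adjoin`, `Algebra.adjoinCommRingOfComm`); the matrices `Θ r` commute with the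
`(A y).map` (induction on `r`). For `v` in `R^ι` put `Φ v = ∑_a (Θ (v a)) *ᵥ e_a` (`e_a` standard basis vectors). Then `Φ` is additive,
`Φ (X x • v) = Θ (X x) *ᵥ Φ v`, `Φ (B *ᵥ v) = B *ᵥ Φ v` for `B = A y`, so `Φ (W *ᵥ v) = W' *ᵥ Φ v` with
`W' = ∑ Θ (X x) * (A x).map`, hence `W' ^ j *ᵥ Φ (v_i) = Φ (W ^ j v_i) = 0`. Under the ring homomorphism `R' → MvPolynomial σ F`, `s_x ↦ X x`,
`ε ↦ 0`, the vector `Φ v` goes to `v` (coefficients mapped to `F`), because `Θ (X x)` goes to `X x • 1`; so the
same minor of `(Φ v_i)` is nonzero. Therefore the `Φ v_i` are linearly independent over `Frac R'` and the rank of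
`W' ^ j` over `Frac R'` is at most `|ι| - q = g`. Finally the ring homomorphism `R' → F`, `s_x ↦ 0`, `ε ↦ 1` maps `W'` to
`∑ (c x • 1 + nu x) * A x`; conclude with `rank_map_le`.
-/

namespace Pool.Agent.Helper24.MA

open scoped IsMulCommutative in
private theorem exists_theta {k M σ : Type*} [Field k] [Ring M] [Algebra k M] (B : σ → M)
    (h : ∀ x y, Commute (B x) (B y)) :
    ∃ Θ : MvPolynomial σ k →ₐ[k] M, ∀ x, Θ (MvPolynomial.X x) = B x := by
  have hc : ∀ a ∈ Set.range B, ∀ b ∈ Set.range B, a * b = b * a := by
    rintro _ ⟨x, rfl⟩ _ ⟨y, rfl⟩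
    exact h x y
  have := Algebra.isMulCommutative_adjoin k hc
  let Θ0 : MvPolynomial σ k →ₐ[k] Algebra.adjoin k (Set.range B) :=
    MvPolynomial.aeval (fun x => ⟨B x, Algebra.subset_adjoin ⟨x, rfl⟩⟩)
  refine ⟨(Algebra.adjoin k (Set.range B)).val.comp Θ0, fun x => ?_⟩
  simp [Θ0]

private theorem theta_commute {k M σ : Type*} [Field k] [Ring M] [Algebra k M]
    (Θ : MvPolynomial σ k →ₐ[k] M) (m : M) (h : ∀ x, Commute m (Θ (MvPolynomial.X x)))
    (r : MvPolynomial σ k) : Commute m (Θ r) := by
  induction r using MvPolynomial.induction_on with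
  | C a =>
    rw [← MvPolynomial.algebraMap_eq, AlgHom.commutes]
    exact (Algebra.commutes a m).symm
  | add p q hp hq =>
    rw [map_add]
    exact hp.add_right hq
  | mul_X p x hp =>
    rw [map_mul]
    exact hp.mul_right (h x)

section

variable {k S σ ι : Type} [Field k] [CommRing S] [Algebra k S] [Fintype ι] [DecidableEq ι]

private noncomputable def phi (Θ : MvPolynomial σ k →ₐ[k] Matrix ι ι S)
    (V : Matrix ι ι (MvPolynomial σ k)) : Matrix ι ι S :=
  Matrix.of (fun b i => ∑ a, Θ (V a i) b a)

private theorem phi_apply (Θ : MvPolynomial σ k →ₐ[k] Matrix ι ι S)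
    (V : Matrix ι ι (MvPolynomial σ k)) (b i : ι) : phi Θ V b i = ∑ a, Θ (V a i) b a := rfl

private theorem phi_zero (Θ : MvPolynomial σ k →ₐ[k] Matrix ι ι S) : phi Θ 0 = 0 := by
  ext b i
  rw [phi_apply]
  simp

private theorem phi_sum {τ : Type} (s : Finset τ) (Θ : MvPolynomial σ k →ₐ[k] Matrix ι ι S)
    (V : τ → Matrix ι ι (MvPolynomial σ k)) : phi Θ (∑ t ∈ s, V t) = ∑ t ∈ s, phi Θ (V t) := by
  ext b i
  rw [phi_apply, Matrix.sum_apply]
  simp only [phi_apply, Matrix.sum_apply, map_sum]
  rw [Finset.sum_comm]

private theorem phi_smul (Θ : MvPolynomial σ k →ₐ[k] Matrix ι ι S) (r : MvPolynomial σ k)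
    (V : Matrix ι ι (MvPolynomial σ k)) : phi Θ (r • V) = Θ r * phi Θ V := by
  ext b i
  rw [phi_apply, Matrix.mul_apply]
  simp only [phi_apply, Matrix.smul_apply, smul_eq_mul, map_mul, Matrix.mul_apply, Finset.mul_sum]
  rw [Finset.sum_comm]

private theorem phi_mul (Θ : MvPolynomial σ k →ₐ[k] Matrix ι ι S) (A : Matrix ι ι k)
    (V : Matrix ι ι (MvPolynomial σ k))
    (h : ∀ r, Commute (A.map (algebraMap k S)) (Θ r)) :
    phi Θ (A.map MvPolynomial.C * V) = A.map (algebraMap k S) * phi Θ V := by
  ext b i
  rw [phi_apply, Matrix.mul_apply]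
  have h1 : ∀ a, Θ (((A.map MvPolynomial.C : Matrix ι ι (MvPolynomial σ k)) * V) a i) =
      ∑ c, A a c • Θ (V c i) := by
    intro a
    rw [Matrix.mul_apply, map_sum]
    refine Finset.sum_congr rfl fun c _ => ?_
    rw [Matrix.map_apply, map_mul, ← MvPolynomial.algebraMap_eq, AlgHom.commutes,
      Algebra.smul_def]
  have h2 : ∀ c, (Θ (V c i) * A.map (algebraMap k S)) b c =
      (A.map (algebraMap k S) * Θ (V c i)) b c := by
    intro c
    rw [(h (V c i)).eq]
  calc ∑ a, Θ (((A.map MvPolynomial.C : Matrix ι ι (MvPolynomial σ k)) * V) a i) b a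
      = ∑ a, ∑ c, A a c • Θ (V c i) b a := by
        refine Finset.sum_congr rfl fun a _ => ?_
        rw [h1, Matrix.sum_apply]
        rfl
    _ = ∑ c, ∑ a, A a c • Θ (V c i) b a := Finset.sum_comm
    _ = ∑ c, (Θ (V c i) * A.map (algebraMap k S)) b c := by
        refine Finset.sum_congr rfl fun c _ => ?_
        rw [Matrix.mul_apply]
        refine Finset.sum_congr rfl fun a _ => ?_
        rw [Matrix.map_apply, Algebra.smul_def, mul_comm]
    _ = ∑ c, (A.map (algebraMap k S) * Θ (V c i)) b c :=
        Finset.sum_congr rfl fun c _ => h2 c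
    _ = ∑ c, ∑ d, A.map (algebraMap k S) b d * Θ (V c i) d c := by
        refine Finset.sum_congr rfl fun c _ => ?_
        rw [Matrix.mul_apply]
    _ = ∑ d, ∑ c, A.map (algebraMap k S) b d * Θ (V c i) d c := Finset.sum_comm
    _ = ∑ d, A.map (algebraMap k S) b d * phi Θ V d i := by
        refine Finset.sum_congr rfl fun d _ => ?_
        rw [phi_apply, Finset.mul_sum]

private theorem phi_gen [Fintype σ] (Θ : MvPolynomial σ k →ₐ[k] Matrix ι ι S)
    (A : σ → Matrix ι ι k) (h : ∀ x r, Commute ((A x).map (algebraMap k S)) (Θ r)) (j : ℕ)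
    (V : Matrix ι ι (MvPolynomial σ k)) :
    phi Θ ((∑ x, (MvPolynomial.X x : MvPolynomial σ k) • (A x).map MvPolynomial.C) ^ j * V) =
      (∑ x, Θ (MvPolynomial.X x) * (A x).map (algebraMap k S)) ^ j * phi Θ V := by
  induction j generalizing V with
  | zero => rw [pow_zero, pow_zero, one_mul, one_mul]
  | succ j ih =>
    rw [pow_succ, pow_succ, mul_assoc, mul_assoc, ih]
    congr 1
    rw [Finset.sum_mul, Finset.sum_mul, phi_sum]
    refine Finset.sum_congr rfl fun x _ => ?_
    rw [smul_mul_assoc, phi_smul, phi_mul Θ (A x) V (h x), mul_assoc]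

end

private theorem exists_ker {R L ι : Type} [CommRing R] [IsDomain R] [Field L] [Algebra R L]
    [IsFractionRing R L] [Fintype ι] [DecidableEq ι] (N : Matrix ι ι R) :
    ∃ V : Matrix ι ι R, N * V = 0 ∧
      (V.map (algebraMap R L)).rank + (N.map (algebraMap R L)).rank = Fintype.card ι := by
  set N' := N.map (algebraMap R L) with hN'
  obtain ⟨g, hg⟩ := (LinearMap.ker N'.mulVecLin).subtype.exists_leftInverse_of_injective
    (by rw [Submodule.ker_subtype])
  set P : (ι → L) →ₗ[L] (ι → L) := (LinearMap.ker N'.mulVecLin).subtype ∘ₗ g with hP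
  have hrange : LinearMap.range P = LinearMap.ker N'.mulVecLin := by
    rw [hP]
    apply le_antisymm
    · rintro _ ⟨v, rfl⟩
      exact (g v).2
    · intro v hv
      refine ⟨v, ?_⟩
      have h1 := congrArg (fun f => f ⟨v, hv⟩) hg
      have h2 : g v = ⟨v, hv⟩ := h1
      rw [LinearMap.comp_apply, h2]
      rfl
  have hNP : N' * LinearMap.toMatrix' P = 0 := by
    apply Matrix.toLin'.injective
    rw [Matrix.toLin'_mul, Matrix.toLin'_toMatrix', map_zero]
    refine LinearMap.ext fun v => ?_
    rw [LinearMap.comp_apply]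
    have h1 : P v ∈ LinearMap.ker N'.mulVecLin := hrange ▸ ⟨v, rfl⟩
    exact h1
  have hrk : (LinearMap.toMatrix' P).rank + N'.rank = Fintype.card ι := by
    have h1 : (LinearMap.toMatrix' P).rank = Module.finrank L (LinearMap.range P) := by
      unfold Matrix.rank
      rw [← Matrix.toLin'_apply', Matrix.toLin'_toMatrix']
    rw [h1, hrange, add_comm]
    unfold Matrix.rank
    rw [LinearMap.finrank_range_add_finrank_ker, Module.finrank_fintype_fun_eq_card]
  obtain ⟨d, hd⟩ := IsLocalization.exist_integer_multiples_of_finite (nonZeroDivisors R)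
    (fun p : ι × ι => LinearMap.toMatrix' P p.1 p.2)
  choose V hV using hd
  have hV2 : ∀ a b, algebraMap R L (V (a, b)) = algebraMap R L d * LinearMap.toMatrix' P a b := by
    intro a b
    have := hV (a, b)
    rw [this, Algebra.smul_def]
  refine ⟨Matrix.of (fun a b => V (a, b)), ?_, ?_⟩
  · have hinj : Function.Injective (algebraMap R L) := IsFractionRing.injective R L
    apply Matrix.map_injective hinj
    beta_reduce
    rw [Matrix.map_mul, ← hN']
    have h2 : (Matrix.of (fun a b => V (a, b))).map (algebraMap R L) =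
        algebraMap R L d • LinearMap.toMatrix' P := by
      ext a b
      rw [Matrix.map_apply, Matrix.of_apply, hV2, Matrix.smul_apply, smul_eq_mul]
    rw [h2, Matrix.mul_smul, hNP, smul_zero]
    ext a b
    simp
  · have h2 : (Matrix.of (fun a b => V (a, b))).map (algebraMap R L) =
        algebraMap R L d • LinearMap.toMatrix' P := by
      ext a b
      rw [Matrix.map_apply, Matrix.of_apply, hV2, Matrix.smul_apply, smul_eq_mul]
    rw [h2, ← hrk]
    congr 1
    apply Matrix.rank_smul_of_mem_nonZeroDivisors
    apply mem_nonZeroDivisors_of_ne_zero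
    exact IsFractionRing.to_map_ne_zero_of_mem_nonZeroDivisors d.2

theorem sub_rank {k F σ ι : Type} [Field k] [Field F] [Algebra k F] [Fintype σ] [Fintype ι]
    [DecidableEq ι] (A : σ → Matrix ι ι k) (nu : σ → Matrix ι ι F) (c : σ → F) (j : ℕ)
    (h1 : ∀ x y, Commute (A x) (A y)) (h2 : ∀ x y, Commute (nu x) (nu y))
    (h3 : ∀ x y, Commute (nu x) ((A y).map (algebraMap k F))) :
    ((∑ x, (c x • (1 : Matrix ι ι F) + nu x) * (A x).map (algebraMap k F)) ^ j).rank ≤
      (((∑ x, (MvPolynomial.X x : MvPolynomial σ k) • (A x).map MvPolynomial.C) ^ j).map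
        (algebraMap (MvPolynomial σ k) (FractionRing (MvPolynomial σ k)))).rank := by
  classical
  obtain ⟨V, hV0, hVr⟩ := exists_ker (L := FractionRing (MvPolynomial σ k))
    ((∑ x, (MvPolynomial.X x : MvPolynomial σ k) •
      ((A x).map MvPolynomial.C : Matrix ι ι (MvPolynomial σ k))) ^ j)
  have hAd : ∀ (m : Matrix ι ι F) (m' : Matrix ι ι F), Commute m m' →
      Commute (m.map (MvPolynomial.C (σ := Option σ))) (m'.map (MvPolynomial.C (σ := Option σ))) := by
    intro m m' h
    exact h.map (MvPolynomial.C (σ := Option σ) (R := F)).mapMatrix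
  let B : σ → Matrix ι ι (MvPolynomial (Option σ) F) := fun x =>
    (MvPolynomial.X (some x) : MvPolynomial (Option σ) F) • (1 : Matrix ι ι (MvPolynomial (Option σ) F)) +
      (MvPolynomial.X none : MvPolynomial (Option σ) F) •
        (c x • (1 : Matrix ι ι F) + nu x).map (MvPolynomial.C (σ := Option σ))
  have hnu : ∀ x y, Commute (c x • (1 : Matrix ι ι F) + nu x) (c y • (1 : Matrix ι ι F) + nu y) := by
    intro x y
    refine Commute.add_left ?_ ?_
    · exact ((Commute.one_left _).smul_left _)
    · exact Commute.add_right ((Commute.one_right _).smul_right _) (h2 x y)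
  have hB : ∀ x y, Commute (B x) (B y) := by
    intro x y
    refine Commute.add_left ?_ ?_
    · exact ((Commute.one_left _).smul_left _)
    · refine Commute.add_right ((Commute.one_right _).smul_right _) ?_
      exact ((hAd _ _ (hnu x y)).smul_right _).smul_left _
  obtain ⟨Θ, hΘ⟩ := exists_theta (k := k) B hB
  have hmapA : ∀ y, (A y).map (algebraMap k (MvPolynomial (Option σ) F)) =
      ((A y).map (algebraMap k F)).map (MvPolynomial.C (σ := Option σ)) := by
    intro y
    ext a b
    simp only [Matrix.map_apply]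
    rfl
  have hcomm : ∀ y r, Commute ((A y).map (algebraMap k (MvPolynomial (Option σ) F))) (Θ r) := by
    intro y r
    apply theta_commute
    intro x
    rw [hΘ, hmapA]
    refine Commute.add_right ((Commute.one_right _).smul_right _) ?_
    refine (hAd _ _ ?_).smul_right _
    exact Commute.add_right ((Commute.one_right _).smul_right _) (h3 x y).symm
  have hker := phi_gen Θ A hcomm j V
  rw [hV0, phi_zero] at hker
  set W' := ∑ x, Θ (MvPolynomial.X x) * (A x).map (algebraMap k (MvPolynomial (Option σ) F)) with hW'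
  -- rank over the fraction field
  have hrk1 : ((phi Θ V).map (algebraMap (MvPolynomial (Option σ) F)
        (FractionRing (MvPolynomial (Option σ) F)))).rank +
      ((W' ^ j).map (algebraMap (MvPolynomial (Option σ) F)
        (FractionRing (MvPolynomial (Option σ) F)))).rank ≤ Fintype.card ι := by
    rw [add_comm]
    apply Matrix.rank_add_rank_le_card_of_mul_eq_zero
    rw [← Matrix.map_mul, ← hker]
    ext a b
    simp
  -- specialisation ε = 0
  let η : MvPolynomial (Option σ) F →+* MvPolynomial σ F :=
    (MvPolynomial.aeval (R := F) (fun o : Option σ => o.elim (0 : MvPolynomial σ F)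
      MvPolynomial.X)).toRingHom
  have hη : ∀ r : MvPolynomial σ k, (Θ r).map η =
      Matrix.scalar ι (MvPolynomial.map (algebraMap k F) r) := by
    intro r
    have h5 : (η.mapMatrix.comp Θ.toRingHom) =
        (Matrix.scalar ι).comp (MvPolynomial.map (σ := σ) (algebraMap k F)) := by
      apply MvPolynomial.ringHom_ext
      · intro a
        change (Θ (MvPolynomial.C a)).map η = Matrix.scalar ι (MvPolynomial.map (algebraMap k F)
          (MvPolynomial.C a))
        rw [← MvPolynomial.algebraMap_eq, AlgHom.commutes, MvPolynomial.algebraMap_eq,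
          MvPolynomial.map_C]
        ext1 i l
        rw [Matrix.map_apply, Matrix.algebraMap_matrix_apply, Matrix.scalar_apply,
          Matrix.diagonal_apply]
        split_ifs with hil
        · change η (MvPolynomial.C (algebraMap k F a)) = _
          simp [η]
        · exact map_zero _
      · intro x
        change (Θ (MvPolynomial.X x)).map η = Matrix.scalar ι (MvPolynomial.map (algebraMap k F)
          (MvPolynomial.X x))
        rw [hΘ, MvPolynomial.map_X]
        ext1 i l
        rw [Matrix.map_apply, Matrix.scalar_apply, Matrix.diagonal_apply]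
        simp only [B, Matrix.add_apply, Matrix.smul_apply, smul_eq_mul, map_add, map_mul,
          Matrix.one_apply]
        have h6 : η (MvPolynomial.X none) = 0 := by simp [η]
        have h7 : η (MvPolynomial.X (some x)) = MvPolynomial.X x := by simp [η]
        rw [h6, h7, zero_mul, add_zero]
        split_ifs with hil
        · simp
        · simp
    exact congrArg (fun f => f r) h5
  have hphiη : (phi Θ V).map η = V.map (MvPolynomial.map (algebraMap k F)) := by
    ext1 b i
    rw [Matrix.map_apply, phi_apply, map_sum, Matrix.map_apply]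
    have h8 : ∀ a, η (Θ (V a i) b a) =
        if b = a then MvPolynomial.map (algebraMap k F) (V a i) else 0 := by
      intro a
      have := congrFun (congrFun (hη (V a i)) b) a
      rw [Matrix.map_apply, Matrix.scalar_apply, Matrix.diagonal_apply] at this
      rw [this]
    simp only [h8]
    rw [Finset.sum_ite_eq]
    simp
  have hrk2 : (V.map (algebraMap (MvPolynomial σ k) (FractionRing (MvPolynomial σ k)))).rank ≤
      ((phi Θ V).map (algebraMap (MvPolynomial (Option σ) F)
        (FractionRing (MvPolynomial (Option σ) F)))).rank := by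
    have h9 := rank_map_le (algebraMap (MvPolynomial (Option σ) F)
        (FractionRing (MvPolynomial (Option σ) F))) (IsFractionRing.injective _ _)
      ((algebraMap (MvPolynomial σ F) (FractionRing (MvPolynomial σ F))).comp η) (phi Θ V)
    refine le_trans (le_of_eq ?_) h9
    have h10 : (phi Θ V).map ((algebraMap (MvPolynomial σ F)
        (FractionRing (MvPolynomial σ F))).comp η) =
        V.map ((algebraMap (MvPolynomial σ F)
          (FractionRing (MvPolynomial σ F))).comp (MvPolynomial.map (algebraMap k F))) := by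
      rw [RingHom.coe_comp, RingHom.coe_comp, ← Matrix.map_map, ← Matrix.map_map, hphiη]
    rw [h10]
    apply rank_map_eq _ _ _ _ V
    · exact (IsFractionRing.injective _ _).comp
        (MvPolynomial.map_injective _ (algebraMap k F).injective)
    · exact IsFractionRing.injective _ _
  -- specialisation ε = 1
  let τ : MvPolynomial (Option σ) F →+* F :=
    (MvPolynomial.aeval (R := F) (fun o : Option σ => o.elim (1 : F) (fun _ => 0))).toRingHom
  have hτ : (W' ^ j).map τ =
      (∑ x, (c x • (1 : Matrix ι ι F) + nu x) * (A x).map (algebraMap k F)) ^ j := by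
    change τ.mapMatrix (W' ^ j) = _
    rw [map_pow, hW', map_sum]
    congr 1
    refine Finset.sum_congr rfl fun x _ => ?_
    rw [map_mul, hΘ]
    have hτC : ∀ m : Matrix ι ι F, τ.mapMatrix (m.map (MvPolynomial.C (σ := Option σ))) = m := by
      intro m
      ext1 a b
      rw [RingHom.mapMatrix_apply, Matrix.map_apply, Matrix.map_apply]
      simp [τ]
    congr 1
    · have h6 : τ (MvPolynomial.X none) = 1 := by simp [τ]
      have h7 : τ (MvPolynomial.X (some x)) = 0 := by simp [τ]
      rw [map_add]
      have h11 : τ.mapMatrix ((MvPolynomial.X (some x) : MvPolynomial (Option σ) F) •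
          (1 : Matrix ι ι (MvPolynomial (Option σ) F))) = 0 := by
        ext1 a b
        rw [RingHom.mapMatrix_apply, Matrix.map_apply, Matrix.smul_apply, smul_eq_mul, map_mul, h7,
          zero_mul]
        rfl
      have h12 : τ.mapMatrix ((MvPolynomial.X none : MvPolynomial (Option σ) F) •
          (c x • (1 : Matrix ι ι F) + nu x).map (MvPolynomial.C (σ := Option σ))) =
          c x • (1 : Matrix ι ι F) + nu x := by
        refine Eq.trans ?_ (hτC (c x • (1 : Matrix ι ι F) + nu x))
        ext1 a b
        rw [RingHom.mapMatrix_apply, Matrix.map_apply, Matrix.smul_apply, smul_eq_mul, map_mul, h6,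
          one_mul]
        rfl
      rw [h11, h12, zero_add]
    · rw [hmapA, hτC]
  have h13 := rank_map_le (algebraMap (MvPolynomial (Option σ) F)
        (FractionRing (MvPolynomial (Option σ) F))) (IsFractionRing.injective _ _) τ (W' ^ j)
  rw [hτ] at h13
  omega

end Pool.Agent.Helper24.MA
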