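import Pool.Agent.Helper24.MA.Rk.Sub
import Pool.Agent.Helper24.MA.Rk.Sp

/-!
# The perturbation lemma for linear maps (module MA-09)

Choose a basis of `T` (`Module.finBasis k T`), translate with `LinearMap.toMatrix` in the base changed basis
(`toMatrix` of `(A x).baseChange F` is `(toMatrix (A x)).map (algebraMap k F)`), apply `sub_rank` and `famOp_matrix`
(with `F := Kf k σ`, `c := tv k`; `MvPolynomial.eval₂Hom (algebraMap k _) (tv k)` is `algebraMap _ (Kf k σ)`).
-/

open TensorProduct

namespace Pool.Agent.Helper24.MA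

theorem sub_rankL {k F σ T : Type} [Field k] [Field F] [Algebra k F] [Fintype σ]
    [AddCommGroup T] [Module k T] [FiniteDimensional k T] (A : σ → (T →ₗ[k] T))
    (nu : σ → (F ⊗[k] T →ₗ[F] F ⊗[k] T)) (c : σ → F) (j : ℕ)
    (h1 : ∀ x y, A x ∘ₗ A y = A y ∘ₗ A x) (h2 : ∀ x y, nu x ∘ₗ nu y = nu y ∘ₗ nu x)
    (h3 : ∀ x y, nu x ∘ₗ (A y).baseChange F = (A y).baseChange F ∘ₗ nu x) :
    Module.finrank F (LinearMap.range
      ((∑ x, (c x • LinearMap.id + nu x) ∘ₗ (A x).baseChange F) ^ j)) ≤
      Module.finrank (Kf k σ) (LinearMap.range (famOp (Kf k σ) A (tv k) ^ j)) := by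
  classical
  let b := Module.finBasis k T
  let bF := Algebra.TensorProduct.basis F b
  have hev : (MvPolynomial.eval₂Hom (algebraMap k (Kf k σ)) (tv k) : MvPolynomial σ k →+* Kf k σ) =
      algebraMap (MvPolynomial σ k) (Kf k σ) := by
    apply MvPolynomial.ringHom_ext
    · intro a
      simp only [MvPolynomial.coe_eval₂Hom, MvPolynomial.eval₂_C]
      rw [← MvPolynomial.algebraMap_eq, ← IsScalarTower.algebraMap_apply]
    · intro x
      simp only [MvPolynomial.coe_eval₂Hom, MvPolynomial.eval₂_X]
      rfl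
  have h4 := famOp_matrix (F := Kf k σ) b A (tv k) j
  rw [h4, hev]
  have h5 : ∀ x, LinearMap.toMatrix bF bF ((A x).baseChange F) =
      (LinearMap.toMatrix b b (A x)).map (algebraMap k F) := by
    intro x
    ext i l
    rw [LinearMap.toMatrix_apply, Matrix.map_apply, LinearMap.toMatrix_apply]
    simp only [bF, Algebra.TensorProduct.basis_apply, LinearMap.baseChange_tmul,
      Algebra.TensorProduct.basis_repr_tmul]
    simp [Algebra.algebraMap_eq_smul_one]
  have h6 := sub_rank (fun x => LinearMap.toMatrix b b (A x)) (fun x => LinearMap.toMatrix bF bF (nu x))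
    c j ?_ ?_ ?_
  · refine le_trans (le_of_eq ?_) h6
    have h7 : (∑ x, (c x • (1 : Matrix _ _ F) + LinearMap.toMatrix bF bF (nu x)) *
        (LinearMap.toMatrix b b (A x)).map (algebraMap k F)) =
        LinearMap.toMatrix bF bF (∑ x, (c x • LinearMap.id + nu x) ∘ₗ (A x).baseChange F) := by
      rw [map_sum]
      refine Finset.sum_congr rfl fun x _ => ?_
      rw [LinearMap.toMatrix_comp bF bF bF, map_add, map_smul, LinearMap.toMatrix_id, h5]
    rw [h7, LinearMap.toMatrix_pow, Matrix.rank_eq_finrank_range_toLin _ bF bF,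
      Matrix.toLin_toMatrix]
  · intro x y
    have := congrArg (LinearMap.toMatrix b b) (h1 x y)
    rw [LinearMap.toMatrix_comp b b b, LinearMap.toMatrix_comp b b b] at this
    exact this
  · intro x y
    have := congrArg (LinearMap.toMatrix bF bF) (h2 x y)
    rw [LinearMap.toMatrix_comp bF bF bF, LinearMap.toMatrix_comp bF bF bF] at this
    exact this
  · intro x y
    have := congrArg (LinearMap.toMatrix bF bF) (h3 x y)
    rw [LinearMap.toMatrix_comp bF bF bF, LinearMap.toMatrix_comp bF bF bF, h5] at this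
    exact this

end Pool.Agent.Helper24.MA
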